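import Pool.Agent.H406.EDG.Char

/-! Bessel's inequality for sums over the primes. -/

set_option autoImplicit false

open Filter Topology

namespace Pool.Agent.H406.EDG

variable {S : Finset ℕ}

theorem sum_of_bdd {f : Pr S → ℂ} {D : ℝ} (hf : ∀ p, ‖f p‖ ≤ D) {σ : ℝ} (hσ : 1 < σ) :
    Summable (fun p => (f p).re * ww σ p) ∧
    ∑' p, (f p).re * ww σ p = (∑' p, f p * ((ww σ p : ℝ) : ℂ)).re := by
  have h1 : Summable fun p => f p * ((ww σ p : ℝ) : ℂ) := by
    refine Summable.of_norm_bounded ((ww_summable (S := S) hσ).mul_left D) fun p => ?_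
    rw [norm_mul, Complex.norm_real, Real.norm_of_nonneg (ww_pos σ p).le]
    exact mul_le_mul_of_nonneg_right (hf p) (ww_pos σ p).le
  have e : ∀ p, (f p * ((ww σ p : ℝ) : ℂ)).re = (f p).re * ww σ p := fun p => Complex.re_mul_ofReal _ _
  have h2 := (Complex.hasSum_re h1.hasSum)
  simp only [e] at h2
  exact ⟨h2.summable, h2.tsum_eq⟩

theorem norm_comb {J : Type} [Fintype J] (t : ℂ) (c : J → ℝ) (v : J → ℂ) :
    ‖t - ∑ j, (c j : ℂ) * (starRingEnd ℂ) (v j)‖ ^ 2 = ‖t‖ ^ 2 - 2 * ∑ j, c j * (t * v j).re +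
      ∑ j, ∑ l, c j * c l * ((starRingEnd ℂ) (v j) * v l).re := by
  have h1 : ∀ z : ℂ, ‖z‖ ^ 2 = (z * (starRingEnd ℂ) z).re := by
    intro z
    rw [Complex.mul_conj, Complex.ofReal_re, Complex.normSq_eq_norm_sq]
  have h2 : ∀ z w : ℂ, ‖z - w‖ ^ 2 = ‖z‖ ^ 2 - 2 * (z * (starRingEnd ℂ) w).re + ‖w‖ ^ 2 := by
    intro z w
    rw [h1, h1, h1, map_sub]
    simp only [Complex.mul_re, Complex.sub_re, Complex.sub_im, Complex.conj_re, Complex.conj_im]
    ring
  rw [h2]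
  congr 1
  · congr 2
    rw [map_sum, Finset.mul_sum, Complex.re_sum]
    refine Finset.sum_congr rfl fun j _ => ?_
    rw [map_mul, Complex.conj_ofReal, Complex.conj_conj]
    have e : t * ((c j : ℂ) * v j) = (c j : ℂ) * (t * v j) := by ring
    rw [e, Complex.re_ofReal_mul]
  · rw [h1, map_sum, Finset.sum_mul, Complex.re_sum]
    refine Finset.sum_congr rfl fun j _ => ?_
    rw [Finset.mul_sum, Complex.re_sum]
    refine Finset.sum_congr rfl fun l _ => ?_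
    rw [map_mul, Complex.conj_ofReal, Complex.conj_conj]
    have e : (c j : ℂ) * (starRingEnd ℂ) (v j) * ((c l : ℂ) * v l) =
        ((c j * c l : ℝ) : ℂ) * ((starRingEnd ℂ) (v j) * v l) := by push_cast; ring
    rw [e, Complex.re_ofReal_mul]

/-- **Bessel's inequality.** -/
theorem bessel {J : Type} [Fintype J] [DecidableEq J] {T : Pr S → ℂ} {V : J → Pr S → ℂ} {D M : ℝ} (hD : ∀ p, ‖T p‖ ≤ D)
    (hV : ∀ j p, ‖V j p‖ ≤ 1)
    (hW : ∃ C : ℝ, ∀ᶠ σ : ℝ in 𝓝[>] 1, ∑' p : Pr S, ww σ p ≤ Lam σ + C)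
    (hT : ∃ C : ℝ, ∀ᶠ σ : ℝ in 𝓝[>] 1, ∑' p : Pr S, ‖T p‖ ^ 2 * ww σ p ≤ M * Lam σ + C)
    (hG : ∀ j l, ∃ C : ℝ, ∀ᶠ σ : ℝ in 𝓝[>] 1,
      |∑' p : Pr S, ((starRingEnd ℂ) (V j p) * V l p).re * ww σ p - (if j = l then Lam σ else 0)| ≤ C) :
    ∃ C : ℝ, ∀ᶠ σ : ℝ in 𝓝[>] 1,
      ∑ j, (∑' p : Pr S, (T p * V j p).re * ww σ p) ^ 2 ≤ M * Lam σ ^ 2 + C * Lam σ := by
  obtain ⟨CW, hCW⟩ := hW
  obtain ⟨CT, hCT⟩ := hT
  choose CG hCG using hG
  set c0 : ℝ := |D| * (1 + |CW|) with hc0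
  have hc0n : 0 ≤ c0 := by positivity
  refine ⟨|CT| + ∑ j : J, ∑ l : J, c0 ^ 2 * |CG j l|, ?_⟩
  filter_upwards [hCW, hCT, eventually_all.2 fun j => eventually_all.2 (hCG j), self_mem_nhdsWithin,
    Lam_tendsto.eventually_ge_atTop 1] with σ h1 h2 h3 h4 h5
  have hσ : (1 : ℝ) < σ := h4
  have hL : 0 < Lam σ := by linarith
  have hww := ww_summable (S := S) hσ
  set B : J → ℝ := fun j => ∑' p : Pr S, (T p * V j p).re * ww σ p with hB
  set G : J → J → ℝ := fun j l => ∑' p : Pr S, ((starRingEnd ℂ) (V j p) * V l p).re * ww σ p with hG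
  have hTV : ∀ j p, ‖T p * V j p‖ ≤ |D| := fun j p => by
    rw [norm_mul]
    have := hD p
    have h6 := hV j p
    have h7 := le_abs_self D
    nlinarith [norm_nonneg (T p), norm_nonneg (V j p)]
  have hVV : ∀ j l p, ‖(starRingEnd ℂ) (V j p) * V l p‖ ≤ 1 := fun j l p => by
    rw [norm_mul, RCLike.norm_conj]
    nlinarith [norm_nonneg (V j p), norm_nonneg (V l p), hV j p, hV l p]
  have sB : ∀ j, Summable fun p : Pr S => (T p * V j p).re * ww σ p := fun j => (sum_of_bdd (hTV j) hσ).1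
  have sG : ∀ j l, Summable fun p : Pr S => ((starRingEnd ℂ) (V j p) * V l p).re * ww σ p := fun j l =>
    (sum_of_bdd (hVV j l) hσ).1
  have sT : Summable fun p : Pr S => ‖T p‖ ^ 2 * ww σ p := by
    refine Summable.of_nonneg_of_le (fun p => mul_nonneg (sq_nonneg _) (ww_pos σ p).le) (fun p => ?_)
      (hww.mul_left (|D| ^ 2))
    exact mul_le_mul_of_nonneg_right
      (pow_le_pow_left₀ (norm_nonneg _) ((hD p).trans (le_abs_self D)) 2) (ww_pos σ p).le
  have hBle : ∀ j, |B j| ≤ c0 * Lam σ := by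
    intro j
    have h6 : ‖B j‖ ≤ ∑' p : Pr S, |D| * ww σ p := by
      refine tsum_of_norm_bounded (hww.mul_left |D|).hasSum fun p => ?_
      rw [norm_mul, Real.norm_of_nonneg (ww_pos σ p).le]
      exact mul_le_mul_of_nonneg_right ((Complex.abs_re_le_norm _).trans (hTV j p)) (ww_pos σ p).le
    rw [tsum_mul_left] at h6
    have h7 : ∑' p : Pr S, ww σ p ≤ (1 + |CW|) * Lam σ := by
      have := le_abs_self CW
      nlinarith [abs_nonneg CW]
    calc |B j| ≤ |D| * ∑' p : Pr S, ww σ p := h6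
      _ ≤ |D| * ((1 + |CW|) * Lam σ) := mul_le_mul_of_nonneg_left h7 (abs_nonneg D)
      _ = c0 * Lam σ := by rw [hc0]; ring
  set c : J → ℝ := fun j => B j / Lam σ with hc
  have hcle : ∀ j, |c j| ≤ c0 := by
    intro j
    rw [hc]
    simp only
    rw [abs_div, abs_of_pos hL, div_le_iff₀ hL]
    exact hBle j
  have esplit : ∀ p : Pr S, ‖T p - ∑ j, (c j : ℂ) * (starRingEnd ℂ) (V j p)‖ ^ 2 * ww σ p =
      ‖T p‖ ^ 2 * ww σ p + (∑ j, (-2 * c j) * ((T p * V j p).re * ww σ p) +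
        ∑ j, ∑ l, (c j * c l) * (((starRingEnd ℂ) (V j p) * V l p).re * ww σ p)) := by
    intro p
    rw [norm_comb]
    have e1 : ∑ j, (-2 * c j) * ((T p * V j p).re * ww σ p) =
        (-2 * ∑ j, c j * (T p * V j p).re) * ww σ p := by
      rw [Finset.mul_sum, Finset.sum_mul]
      exact Finset.sum_congr rfl fun j _ => by ring
    have e2 : ∑ j, ∑ l, (c j * c l) * (((starRingEnd ℂ) (V j p) * V l p).re * ww σ p) =
        (∑ j, ∑ l, c j * c l * ((starRingEnd ℂ) (V j p) * V l p).re) * ww σ p := by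
      rw [Finset.sum_mul]
      refine Finset.sum_congr rfl fun j _ => ?_
      rw [Finset.sum_mul]
      exact Finset.sum_congr rfl fun l _ => by ring
    rw [e1, e2]
    ring
  have hS1 : HasSum (fun p : Pr S => ∑ j, (-2 * c j) * ((T p * V j p).re * ww σ p))
      (∑ j, (-2 * c j) * B j) := hasSum_sum fun j _ => ((sB j).hasSum).mul_left _
  have hS2 : HasSum (fun p : Pr S => ∑ j, ∑ l, (c j * c l) * (((starRingEnd ℂ) (V j p) * V l p).re * ww σ p))
      (∑ j, ∑ l, (c j * c l) * G j l) :=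
    hasSum_sum fun j _ => hasSum_sum fun l _ => ((sG j l).hasSum).mul_left _
  have hpos : 0 ≤ ∑' p : Pr S, ‖T p - ∑ j, (c j : ℂ) * (starRingEnd ℂ) (V j p)‖ ^ 2 * ww σ p :=
    tsum_nonneg fun p => mul_nonneg (sq_nonneg _) (ww_pos σ p).le
  simp only [esplit] at hpos
  rw [(sT.hasSum.add (hS1.add hS2)).tsum_eq] at hpos
  have h6 : ∑ j, (-2 * c j) * B j = -2 * ((∑ j, B j ^ 2) / Lam σ) := by
    rw [Finset.sum_div, Finset.mul_sum]
    refine Finset.sum_congr rfl fun j _ => ?_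
    rw [hc]
    ring
  have h7 : ∑ j, ∑ l, (c j * c l) * G j l ≤ (∑ j, B j ^ 2) / Lam σ + ∑ j : J, ∑ l : J, c0 ^ 2 * |CG j l| := by
    have h8 : ∑ j, ∑ l, (c j * c l) * G j l ≤
        ∑ j, ∑ l, ((if j = l then c j * c l * Lam σ else 0) + c0 ^ 2 * |CG j l|) := by
      refine Finset.sum_le_sum fun j _ => Finset.sum_le_sum fun l _ => ?_
      have h9 : |c j * c l| ≤ c0 ^ 2 := by
        rw [abs_mul, sq]
        exact mul_le_mul (hcle j) (hcle l) (abs_nonneg _) hc0n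
      have h10 := h3 j l
      have h11 : (c j * c l) * (G j l - (if j = l then Lam σ else 0)) ≤ c0 ^ 2 * |CG j l| := by
        refine (le_abs_self _).trans ?_
        rw [abs_mul]
        exact mul_le_mul h9 (h10.trans (le_abs_self _)) (abs_nonneg _) (by positivity)
      split_ifs at h11 ⊢ <;> linarith
    refine h8.trans (le_of_eq ?_)
    simp only [Finset.sum_add_distrib, Finset.sum_ite_eq, Finset.mem_univ, if_true]
    congr 1
    rw [Finset.sum_div]
    refine Finset.sum_congr rfl fun j _ => ?_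
    rw [hc]
    field_simp
  rw [h6] at hpos
  have h8 : (∑ j, B j ^ 2) / Lam σ ≤ M * Lam σ + CT + ∑ j : J, ∑ l : J, c0 ^ 2 * |CG j l| := by linarith
  rw [div_le_iff₀ hL] at h8
  have h9 := le_abs_self CT
  have h10 : ∑ j, B j ^ 2 ≤ M * Lam σ ^ 2 + (|CT| + ∑ j : J, ∑ l : J, c0 ^ 2 * |CG j l|) * Lam σ := by
    nlinarith
  exact h10

end Pool.Agent.H406.EDG
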