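import Pool.Agent.H406.EDG.Prime

/-! Sums over the primes of Dirichlet characters near `Re s = 1`. -/

set_option autoImplicit false

open Filter Topology

namespace Pool.Agent.H406.EDG

theorem bdd_of_tendsto {g : ℝ → ℝ} {c : ℝ} (h : Tendsto g (𝓝[>] 1) (𝓝 c)) :
    ∃ C : ℝ, ∀ᶠ σ : ℝ in 𝓝[>] 1, |g σ| ≤ C := by
  refine ⟨|c| + 1, ?_⟩
  filter_upwards [h.eventually (Metric.ball_mem_nhds c one_pos)] with σ h1
  rw [Real.dist_eq] at h1
  have h2 := abs_add_le (g σ - c) c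
  rw [sub_add_cancel] at h2
  linarith

theorem pt_tendsto (t : ℝ) : Tendsto (fun σ : ℝ => pt σ t) (𝓝[>] 1) (𝓝 (pt 1 t)) := by
  refine tendsto_nhdsWithin_of_tendsto_nhds ?_
  have h : Continuous fun σ : ℝ => pt σ t := by
    unfold pt
    fun_prop
  exact h.tendsto 1

theorem pt_re (σ t : ℝ) : (pt σ t).re = σ := by simp [pt]

theorem pt_ne (t : ℝ) (ht : t ≠ 0) : pt 1 t ≠ 1 := by
  intro h
  have := congrArg Complex.im h
  simp [pt] at this
  exact ht this

variable {N : ℕ} [NeZero N]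

theorem char_all (θ : DirichletCharacter ℂ N) (τ : ℝ) :
    ∃ C : ℝ, ∀ᶠ σ : ℝ in 𝓝[>] 1,
      |Real.log ‖DirichletCharacter.LFunction θ (pt σ τ)‖ - (if θ = 1 ∧ τ = 0 then Lam σ else 0)| ≤ C := by
  by_cases h : θ = 1 ∧ τ = 0
  · obtain ⟨rfl, rfl⟩ := h
    have hres := DirichletCharacter.LFunctionTrivChar_residue_one (N := N)
    set c : ℂ := ∏ p ∈ N.primeFactors, (1 - (p : ℂ)⁻¹) with hc
    have hc0 : c ≠ 0 := by
      rw [hc, Finset.prod_ne_zero_iff]
      intro p hp h0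
      have h1 : ((p : ℂ))⁻¹ = 1 := (sub_eq_zero.1 h0).symm
      have h2 : (p : ℂ) = 1 := inv_eq_one.1 h1
      have h3 : p = 1 := by exact_mod_cast h2
      exact (Nat.prime_of_mem_primeFactors hp).one_lt.ne' h3
    have ht : Tendsto (fun σ : ℝ => pt σ 0) (𝓝[>] 1) (𝓝[≠] 1) := by
      refine tendsto_nhdsWithin_of_tendsto_nhds_of_eventually_within _ ?_ ?_
      · have := pt_tendsto 0
        have e : pt 1 0 = 1 := by simp [pt]
        rwa [e] at this
      · filter_upwards [self_mem_nhdsWithin] with σ h1 h2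
        have h3 : (1 : ℝ) < σ := h1
        have h4 := congrArg Complex.re h2
        rw [pt_re, Complex.one_re] at h4
        linarith
    have hl := ((hres.comp ht).norm).log (norm_ne_zero_iff.2 hc0)
    obtain ⟨C, hC⟩ := bdd_of_tendsto hl
    refine ⟨C, ?_⟩
    have hLne : ∀ᶠ σ : ℝ in 𝓝[>] 1, DirichletCharacter.LFunction (1 : DirichletCharacter ℂ N) (pt σ 0) ≠ 0 := by
      filter_upwards [self_mem_nhdsWithin] with σ h1
      have h3 : (1 : ℝ) < σ := h1
      refine DirichletCharacter.LFunction_ne_zero_of_one_le_re _ (Or.inr ?_) (by rw [pt_re]; exact h3.le)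
      intro h2
      have h4 := congrArg Complex.re h2
      rw [pt_re, Complex.one_re] at h4
      linarith
    filter_upwards [hC, self_mem_nhdsWithin, hLne] with σ h1 h2 h3
    have hσ : (1 : ℝ) < σ := h2
    have hσ0 : 0 < σ - 1 := by linarith
    rw [if_pos ⟨rfl, rfl⟩]
    have e : Real.log ‖((fun s => (s - 1) * DirichletCharacter.LFunctionTrivChar N s) ∘ fun σ : ℝ => pt σ 0) σ‖ =
        Real.log ‖DirichletCharacter.LFunction (1 : DirichletCharacter ℂ N) (pt σ 0)‖ - Lam σ := by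
      simp only [Function.comp]
      rw [norm_mul]
      have e1 : ‖pt σ 0 - 1‖ = σ - 1 := by
        have : pt σ 0 - 1 = (((σ - 1 : ℝ)) : ℂ) := by simp [pt]
        rw [this, Complex.norm_real, Real.norm_of_nonneg hσ0.le]
      rw [e1, Real.log_mul hσ0.ne' (norm_ne_zero_iff.2 h3), Lam_eq]
      ring
    rw [e] at h1
    exact h1
  · simp only [if_neg h, sub_zero]
    have h1 : θ ≠ 1 ∨ pt 1 τ ≠ 1 := by
      by_cases hθ : θ = 1
      · exact Or.inr (pt_ne τ fun h2 => h ⟨hθ, h2⟩)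
      · exact Or.inl hθ
    have h2 : DirichletCharacter.LFunction θ (pt 1 τ) ≠ 0 :=
      DirichletCharacter.LFunction_ne_zero_of_one_le_re θ h1 (by rw [pt_re])
    have h3 : ContinuousAt (DirichletCharacter.LFunction θ) (pt 1 τ) :=
      (DirichletCharacter.differentiableAt_LFunction θ _ h1.symm).continuousAt
    have h4 := ((h3.tendsto.comp (pt_tendsto τ)).norm).log (norm_ne_zero_iff.2 h2)
    exact bdd_of_tendsto h4

omit [NeZero N] in
theorem char_le_one (θ : DirichletCharacter ℂ N) (a : ZMod N) : ‖θ a‖ ≤ 1 := θ.norm_le_one a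

/-- the sums over all primes -/
theorem char_primes (θ : DirichletCharacter ℂ N) (τ : ℝ) :
    ∃ C : ℝ, ∀ᶠ σ : ℝ in 𝓝[>] 1,
      |(∑' p : Nat.Primes, θ ((p : ℕ) : ZMod N) * ((p : ℕ) : ℂ) ^ (-(pt σ τ))).re -
        (if θ = 1 ∧ τ = 0 then Lam σ else 0)| ≤ C := by
  obtain ⟨C, hC⟩ := char_all θ τ
  have hs2 : Summable fun p : Nat.Primes => ((p : ℕ) : ℝ) ^ (-2 : ℝ) := Nat.Primes.summable_rpow.2 (by norm_num)
  refine ⟨C + ∑' p : Nat.Primes, ((p : ℕ) : ℝ) ^ (-2 : ℝ), ?_⟩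
  filter_upwards [hC, self_mem_nhdsWithin] with σ h1 h2
  have hσ : (1 : ℝ) < σ := h2
  have hz : ∀ (p : Nat.Primes) (_i : Unit), ‖θ ((p : ℕ) : ZMod N) * ((p : ℕ) : ℂ) ^ (-(pt σ τ))‖ ≤
      ((p : ℕ) : ℝ) ^ (-σ) := by
    intro p _
    rw [norm_mul, Complex.norm_natCast_cpow_of_pos p.2.pos]
    have e : (-(pt σ τ)).re = -σ := by rw [Complex.neg_re, pt_re]
    rw [e]
    exact mul_le_of_le_one_left (by positivity) (char_le_one θ _)
  have h2le : ∀ p : Nat.Primes, (2 : ℝ) ≤ ((p : ℕ) : ℝ) := fun p => by exact_mod_cast p.2.two_le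
  have hb : ∀ p : Nat.Primes, ((p : ℕ) : ℝ) ^ (-σ) ≤ 1 / 2 := by
    intro p
    calc ((p : ℕ) : ℝ) ^ (-σ) ≤ ((p : ℕ) : ℝ) ^ (-1 : ℝ) :=
          Real.rpow_le_rpow_of_exponent_le (by linarith [h2le p]) (by linarith)
      _ = ((p : ℕ) : ℝ)⁻¹ := Real.rpow_neg_one _
      _ ≤ 1 / 2 := by
          rw [one_div]
          exact inv_anti₀ (by norm_num) (h2le p)
  have hs : Summable fun p : Nat.Primes => ((p : ℕ) : ℝ) ^ (-σ) := Nat.Primes.summable_rpow.2 (by linarith)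
  have hbc : ∀ p : Nat.Primes, (((p : ℕ) : ℝ) ^ (-σ)) ^ 2 ≤ ((p : ℕ) : ℝ) ^ (-2 : ℝ) := by
    intro p
    rw [← Real.rpow_natCast, ← Real.rpow_mul (by positivity)]
    exact Real.rpow_le_rpow_of_exponent_le (by linarith [h2le p]) (by push_cast; linarith)
  have h3 := euler_err hz hb hs hs2 hbc
  have h4 : ∏' p : Nat.Primes, ∏ _i : Unit, (1 - θ ((p : ℕ) : ZMod N) * ((p : ℕ) : ℂ) ^ (-(pt σ τ)))⁻¹ =
      DirichletCharacter.LFunction θ (pt σ τ) := by
    rw [DirichletCharacter.LFunction_eq_LSeries θ (by rw [pt_re]; exact hσ),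
      ← DirichletCharacter.LSeries_eulerProduct_tprod θ (by rw [pt_re]; exact hσ)]
    refine tprod_congr fun p => ?_
    simp
  rw [h4] at h3
  simp only [Finset.univ_unique, Finset.sum_singleton, Fintype.card_unit, Nat.cast_one, one_mul] at h3
  rw [abs_le] at h1 h3 ⊢
  constructor <;> linarith [h1.1, h1.2, h3.1, h3.2]

/-- the sums over the primes outside `S` -/
theorem char_sum (S : Finset ℕ) (θ : DirichletCharacter ℂ N) (τ : ℝ) :
    ∃ C : ℝ, ∀ᶠ σ : ℝ in 𝓝[>] 1,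
      |(∑' p : Pr S, θ ((p.1 : ℕ) : ZMod N) * ((p.1 : ℕ) : ℂ) ^ (-(pt σ τ))).re -
        (if θ = 1 ∧ τ = 0 then Lam σ else 0)| ≤ C := by
  classical
  obtain ⟨C, hC⟩ := char_primes θ τ
  have hinj : Set.InjOn (fun p : Nat.Primes => (p : ℕ)) ((fun p : Nat.Primes => (p : ℕ)) ⁻¹' (S : Set ℕ)) :=
    fun p _ q _ h => Nat.Primes.coe_nat_injective h
  set T : Finset Nat.Primes := S.preimage (fun p : Nat.Primes => (p : ℕ)) hinj with hT
  refine ⟨C + T.card, ?_⟩
  filter_upwards [hC, self_mem_nhdsWithin] with σ h1 h2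
  have hσ : (1 : ℝ) < σ := h2
  set f : Nat.Primes → ℂ := fun p => θ ((p : ℕ) : ZMod N) * ((p : ℕ) : ℂ) ^ (-(pt σ τ)) with hf
  have hz : ∀ p : Nat.Primes, ‖f p‖ ≤ ((p : ℕ) : ℝ) ^ (-σ) := by
    intro p
    rw [hf]
    simp only
    rw [norm_mul, Complex.norm_natCast_cpow_of_pos p.2.pos]
    have e : (-(pt σ τ)).re = -σ := by rw [Complex.neg_re, pt_re]
    rw [e]
    exact mul_le_of_le_one_left (by positivity) (char_le_one θ _)
  have hs : Summable fun p : Nat.Primes => ((p : ℕ) : ℝ) ^ (-σ) := Nat.Primes.summable_rpow.2 (by linarith)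
  have hfs : Summable f := Summable.of_norm_bounded hs hz
  have e1 : ∑ p ∈ T, f p + ∑' p : Pr S, f p.1 = ∑' p, f p := by
    have h3 := hfs.sum_add_tsum_compl (s := T)
    rw [← h3]
    congr 1
    refine (Equiv.tsum_eq (Equiv.subtypeEquivRight fun p => ?_) (fun p : ((T : Set Nat.Primes)ᶜ : Set Nat.Primes) => f p.1)).symm ▸ rfl
    rw [Set.mem_compl_iff, Finset.mem_coe, hT, Finset.mem_preimage]
  have e2 : ‖∑ p ∈ T, f p‖ ≤ T.card := by
    refine (norm_sum_le _ _).trans ?_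
    calc ∑ p ∈ T, ‖f p‖ ≤ ∑ _p ∈ T, (1 : ℝ) := by
          refine Finset.sum_le_sum fun p _ => (hz p).trans ?_
          have h3 : (1 : ℝ) ≤ ((p : ℕ) : ℝ) := by exact_mod_cast p.2.one_lt.le
          exact Real.rpow_le_one_of_one_le_of_nonpos h3 (by linarith)
      _ = T.card := by simp
  have e3 := (Complex.abs_re_le_norm _).trans e2
  have e4 : (∑' p : Pr S, f p.1).re = (∑' p, f p).re - (∑ p ∈ T, f p).re := by
    rw [← e1, Complex.add_re]
    ring
  have e5 : (∑' p : Pr S, θ ((p.1 : ℕ) : ZMod N) * ((p.1 : ℕ) : ℂ) ^ (-(pt σ τ))).re =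
      (∑' p : Pr S, f p.1).re := rfl
  rw [e5, e4]
  rw [abs_le] at h1 e3 ⊢
  constructor <;> linarith [h1.1, h1.2, e3.1, e3.2]

end Pool.Agent.H406.EDG
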