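import Mathlib

/-! The identity `|tr spin|² = ∑_{j ≤ n} tr ∧^j std` for `GSpin(2n+1)`. -/

set_option autoImplicit false

namespace Pool.Agent.H406.EDG

/-- the parameters of the spin representation -/
noncomputable def spin {n : ℕ} (x0 : ℂ) (x : Fin n → ℂ) (I : Finset (Fin n)) : ℂ := x0 * ∏ i ∈ I, x i

/-- the parameters of the standard representation: `1`, `x_i`, `x_i⁻¹` -/
noncomputable def std {n : ℕ} (x : Fin n → ℂ) : Option (Fin n ⊕ Fin n) → ℂ
  | none => 1
  | some (Sum.inl i) => x i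
  | some (Sum.inr i) => (x i)⁻¹

/-- the parameters of the `j`-th exterior power -/
noncomputable def ext {ι : Type} (j : ℕ) (b : ι → ℂ) (I : {I : Finset ι // I.card = j}) : ℂ := ∏ i ∈ I.1, b i

/-- elementary symmetric sums -/
noncomputable def ee {ι : Type} [Fintype ι] (b : ι → ℂ) (j : ℕ) : ℂ :=
  ∑ I ∈ Finset.powersetCard j Finset.univ, ∏ i ∈ I, b i

theorem sum_ext {ι : Type} [Fintype ι] (j : ℕ) (b : ι → ℂ) : ∑ I, ext j b I = ee b j := by
  unfold ee ext
  exact (Finset.sum_subtype (Finset.powersetCard j Finset.univ)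
    (fun I => by rw [Finset.mem_powersetCard_univ]) (fun I : Finset ι => ∏ i ∈ I, b i)).symm

theorem ee_zero {ι : Type} [Fintype ι] (b : ι → ℂ) : ee b 0 = 1 := by
  unfold ee
  simp

theorem ee_total {ι : Type} [Fintype ι] (b : ι → ℂ) :
    ∑ j ∈ Finset.range (Fintype.card ι + 1), ee b j = ∏ i, (1 + b i) := by
  classical
  rw [Finset.prod_one_add, Finset.sum_powerset]
  rfl

theorem ee_symm {ι : Type} [Fintype ι] (b : ι → ℂ) (hb : ∏ i, b i = 1)
    (τ : ι ≃ ι) (hτ : ∀ i, b (τ i) = (b i)⁻¹) {j : ℕ} (hj : j ≤ Fintype.card ι) :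
    ee b (Fintype.card ι - j) = ee b j := by
  classical
  unfold ee
  refine (Finset.sum_bij' (fun (I : Finset ι) _ => (I.map τ.toEmbedding)ᶜ) (fun (I : Finset ι) _ => (Iᶜ).map τ.symm.toEmbedding) ?_ ?_ ?_ ?_ ?_).symm
  · intro I hI
    rw [Finset.mem_powersetCard_univ] at hI ⊢
    rw [Finset.card_compl, Finset.card_map, hI]
  · intro I hI
    rw [Finset.mem_powersetCard_univ] at hI ⊢
    rw [Finset.card_map, Finset.card_compl, hI]
    omega
  · intro I _
    rw [compl_compl, Finset.map_map]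
    ext a
    simp
  · intro I _
    rw [Finset.map_map]
    ext a
    simp
  · intro I _
    have h1 : (∏ i ∈ I.map τ.toEmbedding, b i) * ∏ i ∈ (I.map τ.toEmbedding)ᶜ, b i = 1 := by
      rw [Finset.prod_mul_prod_compl, hb]
    have h2 : ∏ i ∈ I.map τ.toEmbedding, b i = (∏ i ∈ I, b i)⁻¹ := by
      rw [Finset.prod_map, ← Finset.prod_inv_distrib]
      exact Finset.prod_congr rfl fun i _ => hτ i
    rw [h2] at h1
    have h3 : ∏ i ∈ I, b i ≠ 0 := fun h0 => by
      rw [h0, inv_zero, zero_mul] at h1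
      exact zero_ne_one h1
    exact (eq_of_inv_mul_eq_one h1)

theorem prod_std {n : ℕ} (x : Fin n → ℂ) (hx : ∀ i, x i ≠ 0) : ∏ i, std x i = 1 := by
  rw [Fintype.prod_option, Fintype.prod_sum_type]
  simp only [std]
  rw [one_mul, ← Finset.prod_mul_distrib]
  exact Finset.prod_eq_one fun i _ => mul_inv_cancel₀ (hx i)

theorem prod_one_std {n : ℕ} (x : Fin n → ℂ) :
    ∏ i, (1 + std x i) = 2 * ∏ i, ((1 + x i) * (1 + (x i)⁻¹)) := by
  rw [Fintype.prod_option, Fintype.prod_sum_type]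
  simp only [std]
  rw [← Finset.prod_mul_distrib]
  norm_num

/-- the involution of the weights of the standard representation -/
def swap (n : ℕ) : Option (Fin n ⊕ Fin n) ≃ Option (Fin n ⊕ Fin n) := Equiv.optionCongr (Equiv.sumComm _ _)

theorem std_swap {n : ℕ} (x : Fin n → ℂ) (i : Option (Fin n ⊕ Fin n)) : std x (swap n i) = (std x i)⁻¹ := by
  rcases i with _ | (i | i)
  · simp [swap, std]
  · simp [swap, std]
  · simp [swap, std]

theorem half_sum (f : ℕ → ℂ) (n : ℕ) (h : ∀ j ≤ n, f (2 * n + 1 - j) = f j) :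
    ∑ j ∈ Finset.range (2 * n + 1 + 1), f j = 2 * ∑ j ∈ Finset.range (n + 1), f j := by
  have e : 2 * n + 1 + 1 = (n + 1) + (n + 1) := by ring
  rw [e, Finset.sum_range_add]
  have h2 : ∑ x ∈ Finset.range (n + 1), f (n + 1 + x) = ∑ j ∈ Finset.range (n + 1), f j := by
    rw [← Finset.sum_range_reflect]
    refine Finset.sum_congr rfl fun j hj => ?_
    rw [Finset.mem_range] at hj
    have h3 := h j (by omega)
    rw [← h3]
    congr 1
    omega
  rw [h2]
  ring

theorem norm_spin_sq {n : ℕ} (x0 : ℂ) (x : Fin n → ℂ) (h0 : ‖x0‖ = 1) (hx : ∀ i, ‖x i‖ = 1) :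
    ‖∑ I, spin x0 x I‖ ^ 2 = ∑ j ∈ Finset.range (n + 1), (ee (std x) j).re := by
  have hne : ∀ i, x i ≠ 0 := fun i h => by
    have := hx i
    rw [h, norm_zero] at this
    exact zero_ne_one this
  have hconj : ∀ i, (starRingEnd ℂ) (x i) = (x i)⁻¹ := fun i => by
    rw [Complex.inv_def, Complex.normSq_eq_norm_sq, hx i]
    simp
  have e1 : ∑ I, spin x0 x I = x0 * ∏ i, (1 + x i) := by
    unfold spin
    rw [← Finset.mul_sum, Finset.prod_one_add]
    rw [← Finset.powerset_univ]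
  have e2 : ((‖∑ I, spin x0 x I‖ ^ 2 : ℝ) : ℂ) = ∏ i, ((1 + x i) * (1 + (x i)⁻¹)) := by
    rw [e1, norm_mul, h0, one_mul]
    have : ((‖∏ i, (1 + x i)‖ ^ 2 : ℝ) : ℂ) = (∏ i, (1 + x i)) * (starRingEnd ℂ) (∏ i, (1 + x i)) := by
      rw [Complex.mul_conj, Complex.normSq_eq_norm_sq]
    rw [this, map_prod, ← Finset.prod_mul_distrib]
    refine Finset.prod_congr rfl fun i _ => ?_
    rw [map_add, map_one, hconj]
  have hcard : Fintype.card (Option (Fin n ⊕ Fin n)) = 2 * n + 1 := by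
    simp
    ring
  have e3 := ee_total (std x)
  rw [prod_one_std, hcard, half_sum (ee (std x)) n ?_] at e3
  · have e4 : ((‖∑ I, spin x0 x I‖ ^ 2 : ℝ) : ℂ) = ∑ j ∈ Finset.range (n + 1), ee (std x) j := by
      rw [e2]
      exact (mul_left_cancel₀ two_ne_zero e3).symm
    have e5 := congrArg Complex.re e4
    rw [Complex.ofReal_re, Complex.re_sum] at e5
    exact e5
  · intro j hj
    rw [← hcard]
    exact ee_symm (std x) (prod_std x hne) (swap n) (std_swap x) (by rw [hcard]; omega)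

theorem norm_spin {n : ℕ} (x0 : ℂ) (x : Fin n → ℂ) (h0 : ‖x0‖ = 1) (hx : ∀ i, ‖x i‖ = 1) (I : Finset (Fin n)) :
    ‖spin x0 x I‖ = 1 := by
  unfold spin
  rw [norm_mul, h0, one_mul, norm_prod]
  exact Finset.prod_eq_one fun i _ => hx i

theorem norm_ext {n : ℕ} (x : Fin n → ℂ) (hx : ∀ i, ‖x i‖ = 1) (j : ℕ)
    (I : {I : Finset (Option (Fin n ⊕ Fin n)) // I.card = j}) : ‖ext j (std x) I‖ = 1 := by
  unfold ext
  rw [norm_prod]
  refine Finset.prod_eq_one fun i _ => ?_
  rcases i with _ | (i | i)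
  · simp [std]
  · simp [std, hx]
  · simp [std, hx]

end Pool.Agent.H406.EDG
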