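import Pool.Agent.H406.EDG.Bessel
import Pool.Agent.H406.EDG.Spin

/-! The orders on the line `Re s = 1` of the twists of a tempered `L`-function. -/

set_option autoImplicit false

open Filter Topology

namespace Pool.Agent.H406.EDG

variable {S : Finset ℕ} {ι : Type} [Fintype ι] {N : ℕ}

/-- the partial Euler product with parameters `a`, twisted by `χ` -/
noncomputable def LL (a : Pr S → ι → ℂ) (χ : DirichletCharacter ℂ N) (s : ℂ) : ℂ :=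
  ∏' p : Pr S, ∏ i, (1 - a p i * χ ((p.1 : ℕ) : ZMod N) * ((p.1 : ℕ) : ℂ) ^ (-s))⁻¹

/-- `χ(p) p^{-it}` -/
noncomputable def VV (χ : DirichletCharacter ℂ N) (t : ℝ) (p : Pr S) : ℂ :=
  χ ((p.1 : ℕ) : ZMod N) * ((p.1 : ℕ) : ℂ) ^ (-((t : ℂ) * Complex.I))

theorem norm_it (t : ℝ) (p : Pr S) : ‖((p.1 : ℕ) : ℂ) ^ (-((t : ℂ) * Complex.I))‖ = 1 := by
  rw [Complex.norm_natCast_cpow_of_pos p.1.2.pos]
  simp

theorem norm_VV (χ : DirichletCharacter ℂ N) (t : ℝ) (p : Pr S) : ‖VV χ t p‖ ≤ 1 := by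
  unfold VV
  rw [norm_mul, norm_it, mul_one]
  exact χ.norm_le_one _

omit [Fintype ι] in
theorem LL_data {a : Pr S → ι → ℂ} (ha : ∀ p i, ‖a p i‖ = 1) (χ : DirichletCharacter ℂ N) (t : ℝ) {σ : ℝ}
    (_hσ : 1 ≤ σ) (p : Pr S) (i : ι) :
    ‖a p i * χ ((p.1 : ℕ) : ZMod N) * ((p.1 : ℕ) : ℂ) ^ (-(pt σ t))‖ ≤ ww σ p := by
  rw [norm_mul, norm_mul, ha, one_mul, norm_cpow]
  exact mul_le_of_le_one_left (ww_pos σ p).le (χ.norm_le_one _)

theorem LL_ne_zero {a : Pr S → ι → ℂ} (ha : ∀ p i, ‖a p i‖ = 1) (χ : DirichletCharacter ℂ N) (t : ℝ) {σ : ℝ}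
    (hσ : 1 < σ) : LL a χ (pt σ t) ≠ 0 := by
  unfold LL
  rw [(euler (LL_data ha χ t hσ.le) (ww_le hσ.le) (ww_summable hσ)).2.2]
  exact Complex.exp_ne_zero _

/-- `log |L(σ + it)|` is the sum over the primes up to a bounded error. -/
theorem LL_log {a : Pr S → ι → ℂ} (ha : ∀ p i, ‖a p i‖ = 1) (χ : DirichletCharacter ℂ N) (t : ℝ) :
    ∃ C : ℝ, 0 ≤ C ∧ ∀ᶠ σ : ℝ in 𝓝[>] 1,
      |Real.log ‖LL a χ (pt σ t)‖ - ∑' p : Pr S, ((∑ i, a p i) * VV χ t p).re * ww σ p| ≤ C := by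
  refine ⟨Fintype.card ι * ∑' p : Pr S, ww 2 p, ?_, ?_⟩
  · exact mul_nonneg (Nat.cast_nonneg _) (tsum_nonneg fun p => (ww_pos 2 p).le)
  filter_upwards [self_mem_nhdsWithin] with σ h2
  have hσ : (1 : ℝ) < σ := h2
  have h3 := euler_err (LL_data ha χ t hσ.le) (ww_le hσ.le) (ww_summable hσ) (ww_summable (by norm_num : (1:ℝ) < 2))
    (ww_sq hσ.le)
  have hb : ∀ p : Pr S, ‖(∑ i, a p i) * VV χ t p‖ ≤ Fintype.card ι := by
    intro p
    rw [norm_mul]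
    have h4 : ‖∑ i, a p i‖ ≤ Fintype.card ι := by
      refine (norm_sum_le _ _).trans ?_
      simp [ha]
    calc ‖∑ i, a p i‖ * ‖VV χ t p‖ ≤ Fintype.card ι * 1 :=
          mul_le_mul h4 (norm_VV χ t p) (norm_nonneg _) (Nat.cast_nonneg _)
      _ = _ := mul_one _
  rw [(sum_of_bdd hb hσ).2]
  have e : ∑' p : Pr S, (∑ i, a p i) * VV χ t p * ((ww σ p : ℝ) : ℂ) =
      ∑' p : Pr S, ∑ i, a p i * χ ((p.1 : ℕ) : ZMod N) * ((p.1 : ℕ) : ℂ) ^ (-(pt σ t)) := by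
    refine tsum_congr fun p => ?_
    rw [cpow_split, Finset.sum_mul, Finset.sum_mul]
    refine Finset.sum_congr rfl fun i _ => ?_
    unfold VV
    ring
  rw [e]
  exact h3

theorem ww_upper : ∃ C : ℝ, ∀ᶠ σ : ℝ in 𝓝[>] 1, ∑' p : Pr S, ww σ p ≤ Lam σ + C := by
  obtain ⟨C, hC⟩ := char_sum S (1 : DirichletCharacter ℂ 1) 0
  refine ⟨C, ?_⟩
  filter_upwards [hC, self_mem_nhdsWithin] with σ h1 h2
  have hσ : (1 : ℝ) < σ := h2
  rw [if_pos ⟨rfl, rfl⟩] at h1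
  have e : (∑' p : Pr S, (1 : DirichletCharacter ℂ 1) ((p.1 : ℕ) : ZMod 1) * ((p.1 : ℕ) : ℂ) ^ (-(pt σ 0))).re =
      ∑' p : Pr S, ww σ p := by
    have e1 : ∀ p : Pr S, (1 : DirichletCharacter ℂ 1) ((p.1 : ℕ) : ZMod 1) * ((p.1 : ℕ) : ℂ) ^ (-(pt σ 0)) =
        1 * ((ww σ p : ℝ) : ℂ) := by
      intro p
      rw [cpow_split, MulChar.one_apply (isUnit_of_subsingleton _)]
      simp
    rw [tsum_congr e1]
    have h3 := (sum_of_bdd (S := S) (f := fun _ => (1 : ℂ)) (D := 1) (fun p => by simp) hσ).2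
    rw [← h3]
    simp
  rw [e] at h1
  linarith [(abs_le.1 h1).2]

theorem gram [NeZero N] (χ ψ : DirichletCharacter ℂ N) (t u : ℝ) :
    ∃ C : ℝ, ∀ᶠ σ : ℝ in 𝓝[>] 1,
      |∑' p : Pr S, ((starRingEnd ℂ) (VV χ t p) * VV ψ u p).re * ww σ p -
        (if χ = ψ ∧ t = u then Lam σ else 0)| ≤ C := by
  obtain ⟨C, hC⟩ := char_sum S (χ⁻¹ * ψ) (u - t)
  refine ⟨C, ?_⟩
  filter_upwards [hC, self_mem_nhdsWithin] with σ h1 h2
  have hσ : (1 : ℝ) < σ := h2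
  have e0 : (χ⁻¹ * ψ = 1 ∧ u - t = 0) ↔ (χ = ψ ∧ t = u) := by
    rw [inv_mul_eq_one, sub_eq_zero]
    exact ⟨fun h => ⟨h.1, h.2.symm⟩, fun h => ⟨h.1, h.2.symm⟩⟩
  simp only [e0] at h1
  have hb : ∀ p : Pr S, ‖(starRingEnd ℂ) (VV χ t p) * VV ψ u p‖ ≤ 1 := fun p => by
    rw [norm_mul, RCLike.norm_conj]
    nlinarith [norm_nonneg (VV χ t p), norm_nonneg (VV ψ u p), norm_VV χ t p, norm_VV ψ u p]
  rw [(sum_of_bdd hb hσ).2]
  have e : ∑' p : Pr S, (starRingEnd ℂ) (VV χ t p) * VV ψ u p * ((ww σ p : ℝ) : ℂ) =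
      ∑' p : Pr S, (χ⁻¹ * ψ) ((p.1 : ℕ) : ZMod N) * ((p.1 : ℕ) : ℂ) ^ (-(pt σ (u - t))) := by
    refine tsum_congr fun p => ?_
    have h0 : (((p.1 : ℕ) : ℂ)) ≠ 0 := by exact_mod_cast p.1.2.ne_zero
    have hc : (starRingEnd ℂ) (((p.1 : ℕ) : ℂ) ^ (-((t : ℂ) * Complex.I))) =
        ((p.1 : ℕ) : ℂ) ^ ((t : ℂ) * Complex.I) := by
      have h4 := Complex.cpow_conj ((p.1 : ℕ) : ℂ) (-((t : ℂ) * Complex.I)) (by
        rw [Complex.natCast_arg]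
        exact Real.pi_ne_zero.symm)
      rw [Complex.conj_natCast] at h4
      rw [← h4]
      congr 1
      simp
    have h5 : (starRingEnd ℂ) (χ ((p.1 : ℕ) : ZMod N)) = χ⁻¹ ((p.1 : ℕ) : ZMod N) :=
      MulChar.star_apply' χ _
    rw [cpow_split]
    unfold VV
    rw [map_mul, hc, h5, MulChar.mul_apply]
    have h6 : (((p.1 : ℕ) : ℂ)) ^ (-(((u - t : ℝ) : ℂ) * Complex.I)) =
        ((p.1 : ℕ) : ℂ) ^ ((t : ℂ) * Complex.I) * ((p.1 : ℕ) : ℂ) ^ (-((u : ℂ) * Complex.I)) := by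
      rw [← Complex.cpow_add _ _ h0]
      congr 1
      push_cast
      ring
    rw [h6]
    ring
  rw [e]
  exact h1

/-- the bound for the logarithms -/
theorem log_bound [NeZero N] {a : Pr S → ι → ℂ} (ha : ∀ p i, ‖a p i‖ = 1) {M : ℝ}
    (hM : ∃ C : ℝ, ∀ᶠ σ : ℝ in 𝓝[>] 1, ∑' p : Pr S, ‖∑ i, a p i‖ ^ 2 * ww σ p ≤ M * Lam σ + C)
    (J : Finset (DirichletCharacter ℂ N × ℝ)) :
    ∃ C : ℝ, ∀ᶠ σ : ℝ in 𝓝[>] 1,
      ∑ q ∈ J, Real.log ‖LL a q.1 (pt σ q.2)‖ ^ 2 ≤ M * Lam σ ^ 2 + C * Lam σ := by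
  classical
  have hD : ∀ p : Pr S, ‖∑ i, a p i‖ ≤ Fintype.card ι := fun p => by
    refine (norm_sum_le _ _).trans ?_
    simp [ha]
  obtain ⟨C, hC⟩ := bessel (J := {q // q ∈ J}) (T := fun p : Pr S => ∑ i, a p i)
    (V := fun q p => VV q.1.1 q.1.2 p) hD (fun q p => norm_VV _ _ p) ww_upper hM (fun q r => by
      obtain ⟨C, hC⟩ := gram (S := S) q.1.1 r.1.1 q.1.2 r.1.2
      refine ⟨C, ?_⟩
      filter_upwards [hC] with σ h1
      have e : (q.1.1 = r.1.1 ∧ q.1.2 = r.1.2) ↔ q = r := by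
        rw [← Prod.ext_iff, Subtype.ext_iff]
      simp only [e] at h1
      exact h1)
  choose E hE0 hE using fun q : {q // q ∈ J} => LL_log ha q.1.1 q.1.2
  set K : ℝ := |M| + |C| + 1 with hK
  have hK1 : 1 ≤ K := by
    rw [hK]
    linarith [abs_nonneg M, abs_nonneg C]
  refine ⟨C + ∑ q : {q // q ∈ J}, (2 * K * E q + E q ^ 2), ?_⟩
  filter_upwards [hC, eventually_all.2 hE, Lam_tendsto.eventually_ge_atTop 1] with σ h1 h2 h3
  rw [← Finset.sum_coe_sort]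
  set B : {q // q ∈ J} → ℝ := fun q => ∑' p : Pr S, ((∑ i, a p i) * VV q.1.1 q.1.2 p).re * ww σ p with hB
  have hB2 : ∀ q, B q ^ 2 ≤ (K * Lam σ) ^ 2 := by
    intro q
    have h4 : B q ^ 2 ≤ ∑ q, B q ^ 2 :=
      Finset.single_le_sum (f := fun q => B q ^ 2) (fun q _ => sq_nonneg _) (Finset.mem_univ q)
    have h5 : M * Lam σ ^ 2 + C * Lam σ ≤ K * Lam σ ^ 2 := by
      rw [hK]
      have i1 : M * Lam σ ^ 2 ≤ |M| * Lam σ ^ 2 := mul_le_mul_of_nonneg_right (le_abs_self M) (sq_nonneg _)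
      have i2 : C * Lam σ ≤ |C| * Lam σ := mul_le_mul_of_nonneg_right (le_abs_self C) (by linarith)
      have i3 : |C| * Lam σ ≤ |C| * Lam σ ^ 2 := by
        refine mul_le_mul_of_nonneg_left ?_ (abs_nonneg C)
        nlinarith
      nlinarith [sq_nonneg (Lam σ)]
    have h6 : K * Lam σ ^ 2 ≤ (K * Lam σ) ^ 2 := by
      nlinarith [sq_nonneg (Lam σ)]
    linarith
  have hBabs : ∀ q, |B q| ≤ K * Lam σ := fun q => by
    have := abs_le_of_sq_le_sq (hB2 q) (by positivity)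
    exact this
  have h7 : ∀ q : {q // q ∈ J}, Real.log ‖LL a q.1.1 (pt σ q.1.2)‖ ^ 2 ≤ B q ^ 2 + (2 * K * E q + E q ^ 2) * Lam σ := by
    intro q
    set e : ℝ := Real.log ‖LL a q.1.1 (pt σ q.1.2)‖ - B q with he
    have h8 : |e| ≤ E q := h2 q
    have h9 : Real.log ‖LL a q.1.1 (pt σ q.1.2)‖ = B q + e := by rw [he]; ring
    rw [h9]
    have h10 : B q * e ≤ K * Lam σ * E q := by
      refine (le_abs_self _).trans ?_
      rw [abs_mul]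
      exact mul_le_mul (hBabs q) h8 (abs_nonneg _) (by positivity)
    have h11 : e ^ 2 ≤ E q ^ 2 := by
      rw [← sq_abs e]
      exact pow_le_pow_left₀ (abs_nonneg _) h8 2
    have h12 : E q ^ 2 ≤ E q ^ 2 * Lam σ := le_mul_of_one_le_right (sq_nonneg _) h3
    nlinarith
  calc ∑ q : {q // q ∈ J}, Real.log ‖LL a q.1.1 (pt σ q.1.2)‖ ^ 2
      ≤ ∑ q : {q // q ∈ J}, (B q ^ 2 + (2 * K * E q + E q ^ 2) * Lam σ) := Finset.sum_le_sum fun q _ => h7 q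
    _ = ∑ q, B q ^ 2 + (∑ q : {q // q ∈ J}, (2 * K * E q + E q ^ 2)) * Lam σ := by
        rw [Finset.sum_add_distrib, Finset.sum_mul]
    _ ≤ _ := by
        rw [add_mul, ← add_assoc]
        exact add_le_add h1 le_rfl

/-- the trivial bound `M = d²` -/
theorem trivial_mean {a : Pr S → ι → ℂ} (ha : ∀ p i, ‖a p i‖ = 1) :
    ∃ C : ℝ, ∀ᶠ σ : ℝ in 𝓝[>] 1,
      ∑' p : Pr S, ‖∑ i, a p i‖ ^ 2 * ww σ p ≤ (Fintype.card ι : ℝ) ^ 2 * Lam σ + C := by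
  obtain ⟨C, hC⟩ := ww_upper (S := S)
  refine ⟨(Fintype.card ι : ℝ) ^ 2 * C, ?_⟩
  filter_upwards [hC, self_mem_nhdsWithin] with σ h1 h2
  have hσ : (1 : ℝ) < σ := h2
  have hww := ww_summable (S := S) hσ
  have hle : ∀ p : Pr S, ‖∑ i, a p i‖ ^ 2 * ww σ p ≤ (Fintype.card ι : ℝ) ^ 2 * ww σ p := by
    intro p
    refine mul_le_mul_of_nonneg_right (pow_le_pow_left₀ (norm_nonneg _) ?_ 2) (ww_pos σ p).le
    refine (norm_sum_le _ _).trans ?_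
    simp [ha]
  have h3 : ∑' p : Pr S, ‖∑ i, a p i‖ ^ 2 * ww σ p ≤ ∑' p : Pr S, (Fintype.card ι : ℝ) ^ 2 * ww σ p :=
    Summable.tsum_le_tsum hle (Summable.of_nonneg_of_le (fun p => mul_nonneg (sq_nonneg _) (ww_pos σ p).le) hle
      (hww.mul_left _)) (hww.mul_left _)
  rw [tsum_mul_left] at h3
  have h4 : (0 : ℝ) ≤ (Fintype.card ι : ℝ) ^ 2 := by positivity
  nlinarith

/-- the order and the logarithm -/
theorem order_log {F : ℂ → ℂ} {t : ℝ} {r : ℤ} (hF : MeromorphicAt F (pt 1 t))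
    (hr : meromorphicOrderAt F (pt 1 t) = (r : WithTop ℤ)) :
    ∃ C : ℝ, ∀ᶠ σ : ℝ in 𝓝[>] 1, |Real.log ‖F (pt σ t)‖ + r * Lam σ| ≤ C := by
  obtain ⟨g, hg, hg0, he⟩ := (meromorphicOrderAt_eq_int_iff hF).1 hr
  have ht : Tendsto (fun σ : ℝ => pt σ t) (𝓝[>] 1) (𝓝[≠] (pt 1 t)) := by
    refine tendsto_nhdsWithin_of_tendsto_nhds_of_eventually_within _ (pt_tendsto t) ?_
    filter_upwards [self_mem_nhdsWithin] with σ h1 h2
    have h3 : (1 : ℝ) < σ := h1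
    have h4 := congrArg Complex.re h2
    rw [pt_re, pt_re] at h4
    linarith
  have h1 := ((hg.continuousAt.tendsto.comp (pt_tendsto t)).norm).log (norm_ne_zero_iff.2 hg0)
  obtain ⟨C, hC⟩ := bdd_of_tendsto h1
  have hgne : ∀ᶠ σ : ℝ in 𝓝[>] 1, g (pt σ t) ≠ 0 :=
    (pt_tendsto t).eventually (hg.continuousAt.eventually_ne hg0)
  refine ⟨C, ?_⟩
  filter_upwards [hC, hgne, ht.eventually he, self_mem_nhdsWithin] with σ h2 h3 h4 h5
  have hσ : (1 : ℝ) < σ := h5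
  have hσ0 : 0 < σ - 1 := by linarith
  have e1 : ‖pt σ t - pt 1 t‖ = σ - 1 := by
    have : pt σ t - pt 1 t = (((σ - 1 : ℝ)) : ℂ) := by
      unfold pt
      push_cast
      ring
    rw [this, Complex.norm_real, Real.norm_of_nonneg hσ0.le]
  rw [h4, smul_eq_mul, norm_mul, norm_zpow, e1, Real.log_mul (by positivity) (norm_ne_zero_iff.2 h3),
    Real.log_zpow, Lam_eq]
  simp only [Function.comp] at h2
  have e2 : (r : ℝ) * Real.log (σ - 1) + Real.log ‖g (pt σ t)‖ + r * -Real.log (σ - 1) =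
      Real.log ‖g (pt σ t)‖ := by ring
  rw [e2]
  exact h2

theorem order_ne_top {F : ℂ → ℂ} {t : ℝ} {a : Pr S → ι → ℂ} (ha : ∀ p i, ‖a p i‖ = 1)
    {χ : DirichletCharacter ℂ N} (h : ∀ s : ℂ, 1 < s.re → F s = LL a χ s) :
    meromorphicOrderAt F (pt 1 t) ≠ ⊤ := by
  intro htop
  rw [meromorphicOrderAt_eq_top_iff] at htop
  have ht : Tendsto (fun σ : ℝ => pt σ t) (𝓝[>] 1) (𝓝[≠] (pt 1 t)) := by
    refine tendsto_nhdsWithin_of_tendsto_nhds_of_eventually_within _ (pt_tendsto t) ?_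
    filter_upwards [self_mem_nhdsWithin] with σ h1 h2
    have h3 : (1 : ℝ) < σ := h1
    have h4 := congrArg Complex.re h2
    rw [pt_re, pt_re] at h4
    linarith
  obtain ⟨σ, h1, h2⟩ := ((ht.eventually htop).and self_mem_nhdsWithin).exists
  have hσ : (1 : ℝ) < σ := h2
  rw [h _ (by rw [pt_re]; exact hσ)] at h1
  exact LL_ne_zero ha χ t hσ h1

/-- the bound for the orders -/
theorem order_bound [NeZero N] {a : Pr S → ι → ℂ} (ha : ∀ p i, ‖a p i‖ = 1) {M : ℝ}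
    (hM : ∃ C : ℝ, ∀ᶠ σ : ℝ in 𝓝[>] 1, ∑' p : Pr S, ‖∑ i, a p i‖ ^ 2 * ww σ p ≤ M * Lam σ + C)
    (J : Finset (DirichletCharacter ℂ N × ℝ)) (F : DirichletCharacter ℂ N → ℂ → ℂ)
    (hF : ∀ q ∈ J, MeromorphicAt (F q.1) (pt 1 q.2))
    (hFL : ∀ q ∈ J, ∀ s : ℂ, 1 < s.re → F q.1 s = LL a q.1 s) :
    (∑ q ∈ J, ((meromorphicOrderAt (F q.1) (pt 1 q.2)).untop₀ : ℝ) ^ 2) ≤ M := by
  classical
  obtain ⟨C, hC⟩ := log_bound ha hM J
  set r : {q // q ∈ J} → ℤ := fun q => (meromorphicOrderAt (F q.1.1) (pt 1 q.1.2)).untop₀ with hr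
  have hE := fun q : {q // q ∈ J} => order_log (hF q.1 q.2)
    (WithTop.coe_untop₀_of_ne_top (order_ne_top ha (hFL q.1 q.2))).symm
  choose E hE using hE
  rw [← Finset.sum_coe_sort]
  by_contra hcon
  push Not at hcon
  have hbound : ∀ᶠ σ : ℝ in 𝓝[>] 1, ((∑ q : {q // q ∈ J}, (r q : ℝ) ^ 2) - M) * Lam σ ≤
      C + ∑ q : {q // q ∈ J}, 2 * |(r q : ℝ)| * |E q| := by
    filter_upwards [hC, eventually_all.2 hE, Lam_tendsto.eventually_ge_atTop 1, self_mem_nhdsWithin] with σ h1 h2 h3 h4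
    have hσ : (1 : ℝ) < σ := h4
    rw [← Finset.sum_coe_sort] at h1
    have h5 : ∀ q : {q // q ∈ J}, (r q : ℝ) ^ 2 * Lam σ ^ 2 - 2 * |(r q : ℝ)| * |E q| * Lam σ ≤
        Real.log ‖LL a q.1.1 (pt σ q.1.2)‖ ^ 2 := by
      intro q
      have h6 := h2 q
      rw [hFL q.1 q.2 _ (by rw [pt_re]; exact hσ)] at h6
      set e : ℝ := Real.log ‖LL a q.1.1 (pt σ q.1.2)‖ + r q * Lam σ with he
      have h7 : Real.log ‖LL a q.1.1 (pt σ q.1.2)‖ = e - r q * Lam σ := by rw [he]; ring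
      rw [h7]
      have h8 : (r q : ℝ) * e ≤ |(r q : ℝ)| * |E q| := by
        refine (le_abs_self _).trans ?_
        rw [abs_mul]
        exact mul_le_mul_of_nonneg_left (h6.trans (le_abs_self _)) (abs_nonneg _)
      have h9 : (r q : ℝ) * e * Lam σ ≤ |(r q : ℝ)| * |E q| * Lam σ :=
        mul_le_mul_of_nonneg_right h8 (by linarith)
      nlinarith [sq_nonneg e]
    have h10 := (Finset.sum_le_sum fun q (_ : q ∈ Finset.univ) => h5 q).trans h1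
    rw [Finset.sum_sub_distrib, ← Finset.sum_mul, ← Finset.sum_mul] at h10
    have h11 : ((∑ q : {q // q ∈ J}, (r q : ℝ) ^ 2) - M) * Lam σ * Lam σ ≤
        (C + ∑ q : {q // q ∈ J}, 2 * |(r q : ℝ)| * |E q|) * Lam σ := by
      nlinarith
    exact le_of_mul_le_mul_right h11 (by linarith)
  have hpos : 0 < (∑ q : {q // q ∈ J}, (r q : ℝ) ^ 2) - M := by
    rw [hr]
    linarith
  have h1 : Tendsto (fun σ => ((∑ q : {q // q ∈ J}, (r q : ℝ) ^ 2) - M) * Lam σ) (𝓝[>] 1) atTop :=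
    Lam_tendsto.const_mul_atTop hpos
  obtain ⟨σ, h2, h3⟩ := (hbound.and (h1.eventually_gt_atTop
    (C + ∑ q : {q // q ∈ J}, 2 * |(r q : ℝ)| * |E q|))).exists
  linarith

/-- the mean square of the trace of the spin representation -/
theorem spin_mean {n : ℕ} {x0 : Pr S → ℂ} {x : Pr S → Fin n → ℂ} (h0 : ∀ p, ‖x0 p‖ = 1)
    (hx : ∀ p i, ‖x p i‖ = 1) (k : ℕ → ℤ) (E : ℕ → ℂ → ℂ)
    (hE : ∀ j ∈ Finset.Icc 1 n, MeromorphicAt (E j) 1 ∧ meromorphicOrderAt (E j) 1 = ((-(k j) : ℤ) : WithTop ℤ) ∧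
      ∀ s : ℂ, 1 < s.re → E j s = LL (fun p : Pr S => ext j (std (x p))) (1 : DirichletCharacter ℂ 1) s) :
    ∃ C : ℝ, ∀ᶠ σ : ℝ in 𝓝[>] 1,
      ∑' p : Pr S, ‖∑ I, spin (x0 p) (x p) I‖ ^ 2 * ww σ p ≤
        (1 + ∑ j ∈ Finset.Icc 1 n, (k j : ℝ)) * Lam σ + C := by
  classical
  have hpt : pt 1 0 = 1 := by simp [pt]
  have h1 : ∀ j ∈ Finset.Icc 1 n, ∃ C : ℝ, ∀ᶠ σ : ℝ in 𝓝[>] 1,
      ∑' p : Pr S, (ee (std (x p)) j).re * ww σ p ≤ k j * Lam σ + C := by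
    intro j hj
    obtain ⟨hm, ho, hl⟩ := hE j hj
    obtain ⟨C1, hC0, hC1⟩ := LL_log (S := S) (a := fun p => ext j (std (x p))) (fun p I => norm_ext (x p) (hx p) j I)
      (1 : DirichletCharacter ℂ 1) 0
    obtain ⟨C2, hC2⟩ := order_log (t := 0) (by rw [hpt]; exact hm) (by rw [hpt]; exact ho)
    refine ⟨C1 + C2, ?_⟩
    filter_upwards [hC1, hC2, self_mem_nhdsWithin] with σ h2 h3 h4
    have hσ : (1 : ℝ) < σ := h4
    rw [hl _ (by rw [pt_re]; exact hσ)] at h3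
    have e : ∑' p : Pr S, ((∑ i, ext j (std (x p)) i) * VV (1 : DirichletCharacter ℂ 1) 0 p).re * ww σ p =
        ∑' p : Pr S, (ee (std (x p)) j).re * ww σ p := by
      refine tsum_congr fun p => ?_
      have e1 : VV (1 : DirichletCharacter ℂ 1) 0 p = 1 := by
        unfold VV
        rw [MulChar.one_apply (isUnit_of_subsingleton _)]
        simp
      rw [e1, mul_one, sum_ext]
    rw [e] at h2
    push_cast at h3
    have h5 := (abs_le.1 h2)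
    have h6 := (abs_le.1 h3)
    linarith [h5.1, h6.2]
  choose! C hC using h1
  obtain ⟨C0, hC0⟩ := ww_upper (S := S)
  refine ⟨C0 + ∑ j ∈ Finset.Icc 1 n, C j, ?_⟩
  filter_upwards [hC0, (Filter.eventually_all_finset (Finset.Icc 1 n)).2 hC, self_mem_nhdsWithin] with σ h2 h3 h4
  have hσ : (1 : ℝ) < σ := h4
  have hs : ∀ j, Summable fun p : Pr S => (ee (std (x p)) j).re * ww σ p := by
    intro j
    refine (sum_of_bdd (D := Fintype.card {I : Finset (Option (Fin n ⊕ Fin n)) // I.card = j}) (fun p => ?_) hσ).1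
    rw [← sum_ext]
    refine (norm_sum_le _ _).trans ?_
    simp [norm_ext (x p) (hx p) j]
  have e : ∀ p : Pr S, ‖∑ I, spin (x0 p) (x p) I‖ ^ 2 * ww σ p =
      ∑ j ∈ Finset.range (n + 1), (ee (std (x p)) j).re * ww σ p := by
    intro p
    rw [norm_spin_sq (x0 p) (x p) (h0 p) (hx p), Finset.sum_mul]
  rw [tsum_congr e, Summable.tsum_finsetSum fun j _ => hs j, Finset.sum_range_succ']
  have e0 : ∑' p : Pr S, (ee (std (x p)) 0).re * ww σ p = ∑' p : Pr S, ww σ p := by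
    refine tsum_congr fun p => ?_
    rw [ee_zero]
    simp
  rw [e0]
  have e2 : ∑ j ∈ Finset.range n, ∑' p : Pr S, (ee (std (x p)) (j + 1)).re * ww σ p ≤
      ∑ j ∈ Finset.range n, (k (j + 1) * Lam σ + C (j + 1)) := by
    refine Finset.sum_le_sum fun j hj => ?_
    rw [Finset.mem_range] at hj
    exact h3 (j + 1) (Finset.mem_Icc.2 ⟨by omega, by omega⟩)
  have e3 : ∀ f : ℕ → ℝ, ∑ j ∈ Finset.Icc 1 n, f j = ∑ j ∈ Finset.range n, f (j + 1) := by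
    intro f
    rw [Finset.range_eq_Ico, Finset.sum_Ico_add' f 0 n 1]
    rfl
  rw [e3, e3]
  rw [Finset.sum_add_distrib, ← Finset.sum_mul] at e2
  linarith

end Pool.Agent.H406.EDG
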