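import Mathlib

/-! Sums over the primes of Dirichlet characters and of degree `d` Euler products near `Re s = 1`. -/

set_option autoImplicit false

open Filter Topology

namespace Pool.Agent.H406.EDG

/-- `log (1 / (σ - 1))` -/
noncomputable def Lam (σ : ℝ) : ℝ := Real.log (1 / (σ - 1))

theorem Lam_eq (σ : ℝ) : Lam σ = - Real.log (σ - 1) := by
  unfold Lam
  rw [one_div, Real.log_inv]

theorem Lam_tendsto : Tendsto Lam (𝓝[>] 1) atTop := by
  unfold Lam
  refine Real.tendsto_log_atTop.comp ?_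
  simp only [one_div]
  refine tendsto_inv_nhdsGT_zero.comp ?_
  refine tendsto_nhdsWithin_of_tendsto_nhds_of_eventually_within _ ?_ ?_
  · refine tendsto_nhdsWithin_of_tendsto_nhds ?_
    have h : Continuous fun σ : ℝ => σ - 1 := by fun_prop
    have := h.tendsto 1
    simpa using this
  · filter_upwards [self_mem_nhdsWithin] with σ h
    have h1 : (1 : ℝ) < σ := h
    exact sub_pos.2 h1

/-! ### Euler products -/

theorem log_err {z : ℂ} (hz : ‖z‖ ≤ 1 / 2) : ‖-Complex.log (1 - z) - z‖ ≤ ‖z‖ ^ 2 := by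
  have h := Complex.norm_log_one_add_sub_self_le (z := -z) (by rw [norm_neg]; linarith)
  rw [norm_neg] at h
  have e : -Complex.log (1 - z) - z = -(Complex.log (1 + -z) - -z) := by
    rw [← sub_eq_add_neg]; ring
  rw [e, norm_neg]
  refine h.trans ?_
  have h1 : (1 - ‖z‖)⁻¹ ≤ 2 := by
    rw [inv_le_comm₀ (by linarith) (by norm_num)]
    linarith
  have h2 : 0 ≤ ‖z‖ ^ 2 := by positivity
  nlinarith

theorem euler {P ι : Type} [Fintype ι] {z : P → ι → ℂ} {b : P → ℝ} (hz : ∀ p i, ‖z p i‖ ≤ b p)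
    (hb : ∀ p, b p ≤ 1 / 2) (hs : Summable b) :
    Summable (fun p => ∑ i, z p i) ∧ Summable (fun p => ∑ i, -Complex.log (1 - z p i)) ∧
    ∏' p, ∏ i, (1 - z p i)⁻¹ = Complex.exp (∑' p, ∑ i, -Complex.log (1 - z p i)) := by
  have h1 : Summable (fun p => ∑ i, z p i) := by
    refine Summable.of_norm_bounded (hs.mul_left (Fintype.card ι : ℝ)) fun p => ?_
    refine (norm_sum_le _ _).trans ?_
    calc ∑ i, ‖z p i‖ ≤ ∑ _i : ι, b p := Finset.sum_le_sum fun i _ => hz p i
      _ = _ := by rw [Finset.sum_const, Finset.card_univ, nsmul_eq_mul]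
  have hlog : ∀ p i, ‖-Complex.log (1 - z p i)‖ ≤ 2 * b p := by
    intro p i
    have h2 := log_err ((hz p i).trans (hb p))
    have h3 := hz p i
    have h4 := hb p
    have h5 : ‖-Complex.log (1 - z p i)‖ ≤ ‖-Complex.log (1 - z p i) - z p i‖ + ‖z p i‖ := by
      have := norm_add_le (-Complex.log (1 - z p i) - z p i) (z p i)
      rwa [sub_add_cancel] at this
    have h6 := norm_nonneg (z p i)
    nlinarith
  have h2 : ∀ i, Summable (fun p => Complex.log ((1 - z p i)⁻¹)) ∧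
      ∀ p, Complex.log ((1 - z p i)⁻¹) = -Complex.log (1 - z p i) := by
    intro i
    have e : ∀ p, Complex.log ((1 - z p i)⁻¹) = -Complex.log (1 - z p i) := by
      intro p
      refine Complex.log_inv _ ?_
      intro harg
      have h3 : (1 - z p i).re < 0 := by
        rw [Complex.arg_eq_pi_iff] at harg
        exact harg.1
      have h4 := (Complex.abs_re_le_norm (z p i)).trans ((hz p i).trans (hb p))
      have h5 := abs_le.1 h4
      rw [Complex.sub_re, Complex.one_re] at h3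
      linarith [h5.2]
    refine ⟨?_, e⟩
    simp only [e]
    exact Summable.of_norm_bounded (hs.mul_left 2) fun p => hlog p i
  have h3 : Summable (fun p => ∑ i, -Complex.log (1 - z p i)) :=
    summable_sum fun i _ => (h2 i).1.congr (h2 i).2
  refine ⟨h1, h3, ?_⟩
  have hne : ∀ p i, (1 - z p i) ≠ 0 := by
    intro p i h0
    have h4 : z p i = 1 := (sub_eq_zero.1 h0).symm
    have h5 := (hz p i).trans (hb p)
    rw [h4, norm_one] at h5
    norm_num at h5
  have hprod : HasProd (fun p => ∏ i, (1 - z p i)⁻¹) (Complex.exp (∑' p, ∑ i, -Complex.log (1 - z p i))) := by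
    have h6 : HasSum (fun p => ∑ i, -Complex.log (1 - z p i)) (∑' p, ∑ i, -Complex.log (1 - z p i)) := h3.hasSum
    refine h6.cexp.congr fun s => ?_
    refine Finset.prod_congr rfl fun p _ => ?_
    simp only [Function.comp]
    rw [Complex.exp_sum]
    refine Finset.prod_congr rfl fun i _ => ?_
    rw [Complex.exp_neg, Complex.exp_log (hne p i)]
  exact hprod.tprod_eq


theorem euler_err {P ι : Type} [Fintype ι] {z : P → ι → ℂ} {b : P → ℝ} (hz : ∀ p i, ‖z p i‖ ≤ b p)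
    (hb : ∀ p, b p ≤ 1 / 2) (hs : Summable b) {c : P → ℝ} (hc : Summable c) (hbc : ∀ p, b p ^ 2 ≤ c p) :
    |Real.log ‖∏' p, ∏ i, (1 - z p i)⁻¹‖ - (∑' p, ∑ i, z p i).re| ≤ Fintype.card ι * ∑' p, c p := by
  obtain ⟨h1, h2, h3⟩ := euler hz hb hs
  rw [h3, Complex.norm_exp, Real.log_exp, ← Complex.sub_re, ← h2.tsum_sub h1]
  refine (Complex.abs_re_le_norm _).trans ?_
  rw [← tsum_mul_left]
  refine tsum_of_norm_bounded (hc.mul_left (Fintype.card ι : ℝ)).hasSum fun p => ?_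
  rw [← Finset.sum_sub_distrib]
  refine (norm_sum_le _ _).trans ?_
  calc ∑ i, ‖-Complex.log (1 - z p i) - z p i‖ ≤ ∑ _i : ι, c p := by
        refine Finset.sum_le_sum fun i _ => ?_
        refine (log_err ((hz p i).trans (hb p))).trans ?_
        exact (pow_le_pow_left₀ (norm_nonneg _) (hz p i) 2).trans (hbc p)
    _ = _ := by rw [Finset.sum_const, Finset.card_univ, nsmul_eq_mul]

/-! ### primes -/

/-- the primes outside `S` -/
abbrev Pr (S : Finset ℕ) := {p : Nat.Primes // (p : ℕ) ∉ S}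

variable {S : Finset ℕ}

/-- `p ^ (-σ)` -/
noncomputable def ww (σ : ℝ) (p : Pr S) : ℝ := ((p.1 : ℕ) : ℝ) ^ (-σ)

theorem ww_pos (σ : ℝ) (p : Pr S) : 0 < ww σ p := by
  unfold ww
  have := p.1.2.pos
  positivity

theorem two_le (p : Pr S) : (2 : ℝ) ≤ ((p.1 : ℕ) : ℝ) := by exact_mod_cast p.1.2.two_le

theorem ww_le {σ : ℝ} (hσ : 1 ≤ σ) (p : Pr S) : ww σ p ≤ 1 / 2 := by
  unfold ww
  have h2 := two_le p
  calc ((p.1 : ℕ) : ℝ) ^ (-σ) ≤ ((p.1 : ℕ) : ℝ) ^ (-1 : ℝ) :=
        Real.rpow_le_rpow_of_exponent_le (by linarith) (by linarith)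
    _ = ((p.1 : ℕ) : ℝ)⁻¹ := Real.rpow_neg_one _
    _ ≤ 1 / 2 := by
        rw [one_div]
        exact inv_anti₀ (by norm_num) h2

theorem ww_summable {σ : ℝ} (hσ : 1 < σ) : Summable (ww (S := S) σ) :=
  (Nat.Primes.summable_rpow.2 (show -σ < -1 by linarith)).subtype _

theorem ww_sq {σ : ℝ} (hσ : 1 ≤ σ) (p : Pr S) : ww σ p ^ 2 ≤ ww 2 p := by
  unfold ww
  have h2 := two_le p
  rw [← Real.rpow_natCast, ← Real.rpow_mul (by positivity)]
  exact Real.rpow_le_rpow_of_exponent_le (by linarith) (by push_cast; linarith)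

/-- `s = σ + i t` -/
noncomputable def pt (σ t : ℝ) : ℂ := (σ : ℂ) + t * Complex.I

theorem norm_cpow (σ t : ℝ) (p : Pr S) : ‖(((p.1 : ℕ) : ℂ)) ^ (-(pt σ t))‖ = ww σ p := by
  unfold ww pt
  rw [Complex.norm_natCast_cpow_of_pos p.1.2.pos]
  simp

theorem cpow_split (σ t : ℝ) (p : Pr S) : (((p.1 : ℕ) : ℂ)) ^ (-(pt σ t)) =
    (((p.1 : ℕ) : ℂ)) ^ (-((t : ℂ) * Complex.I)) * ((ww σ p : ℝ) : ℂ) := by
  unfold ww pt
  have h0 : (((p.1 : ℕ) : ℂ)) ≠ 0 := by exact_mod_cast p.1.2.ne_zero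
  rw [Complex.ofReal_cpow (by positivity), neg_add, Complex.cpow_add _ _ h0, mul_comm]
  push_cast
  rfl

end Pool.Agent.H406.EDG
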